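import Pool.Agent.helper62.K3.Defs

/-!
Module hk:P3 (MP_90cd86_gt): charts of the surface `X0`.
-/

open scoped Manifold ContDiff

noncomputable section

namespace Pool.Agent.helper62.K3

/-- The polynomial expressing `z_j ^ 2` in the chart with coordinates `b`, `c`. -/
def P3_R (a b c j : Fin 6) (u : ℂ × ℂ) : ℂ :=
  Lc {a, b, c} j a + (Lc {a, b, c} j b * u.1 ^ 2 + Lc {a, b, c} j c * u.2 ^ 2)

/-- The homogeneous coordinates of the inverse of the chart. -/
def P3_x (a b c : Fin 6) (T : X0) (u : ℂ × ℂ) (i : Fin 6) : ℂ :=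
  if i = a then 1 else if i = b then u.1 else if i = c then u.2 else
    zc a i T * (P3_R a b c i u / P3_R a b c i (crd a b c T)) ^ (2⁻¹ : ℂ)

theorem P3_card (a b c : Fin 6) (hab : a ≠ b) (hac : a ≠ c) (hbc : b ≠ c) :
    ({a, b, c} : Finset (Fin 6)).card = 3 := by
  rw [Finset.card_eq_three]
  exact ⟨a, b, c, hab, hac, hbc, rfl⟩

theorem P3_sum (a b c : Fin 6) (hab : a ≠ b) (hac : a ≠ c) (hbc : b ≠ c) (f : Fin 6 → ℂ) :
    ∑ s ∈ ({a, b, c} : Finset (Fin 6)), f s = f a + (f b + f c) := by
  rw [Finset.sum_insert (by simp [hab, hac]), Finset.sum_insert (by simp [hbc]),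
    Finset.sum_singleton]

theorem P3_R_cont (a b c j : Fin 6) : Continuous (P3_R a b c j) := by
  unfold P3_R
  fun_prop

theorem P3_sqrt_re (z : ℂ) (hz : z ∈ Complex.slitPlane) : 0 < (z ^ (2⁻¹ : ℂ)).re := by
  rw [Complex.cpow_inv_two_re]
  apply Real.sqrt_pos.mpr
  have h1 : 0 < ‖z‖ + z.re := by
    rcases hz with h | h
    · have := norm_nonneg z
      linarith
    · have h2 : |z.re| < ‖z‖ := by
        rw [Complex.abs_re_lt_norm]
        exact h
      have h3 := neg_abs_le z.re
      linarith
  linarith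

theorem P3_sq_slit (z : ℂ) (hz : 0 < z.re) : z ^ 2 ∈ Complex.slitPlane := by
  rw [Complex.mem_slitPlane_iff, sq, Complex.mul_re, Complex.mul_im]
  by_cases h : z.im = 0
  · left
    rw [h]
    nlinarith
  · right
    intro h2
    have h3 : z.re * z.im = 0 := by linarith
    rcases mul_eq_zero.mp h3 with h4 | h4
    · exact hz.ne' h4
    · exact h h4

theorem P3_sq_sqrt (z : ℂ) (hz : 0 < z.re) : (z ^ 2) ^ (2⁻¹ : ℂ) = z := by
  have := Complex.sq_cpow_two_inv hz
  exact_mod_cast this

theorem P3_sqrt_sq (z : ℂ) : (z ^ (2⁻¹ : ℂ)) ^ 2 = z := by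
  have := Complex.cpow_nat_inv_pow z (n := 2) two_ne_zero
  exact_mod_cast this


/-- P3 from P1 and P2 -/
theorem P3_of
    (hP1 : ∀ (A : Finset (Fin 6)) (_ : A.card = 3) (y : Fin 6 → ℂ),
      y ∈ KK ↔ ∀ j, j ∉ A → y j = ∑ s ∈ A, Lc A j s * y s)
    (hzc : ∀ a i : Fin 6, ContinuousOn (zc a i) {T | T.1 a a ≠ 0})
    (hrel : ∀ (a : Fin 6) (T : X0) (_ : T.1 a a ≠ 0),
      zc a a T = 1 ∧ (fun i => zc a i T ^ 2) ∈ KK ∧
      (∀ i j, T.1 i j = zc a i T * (starRingEnd ℂ) (zc a j T) /
        ((∑ k, ‖zc a k T‖ ^ 2 : ℝ) : ℂ)) ∧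
      (∀ i, T.1 i i = 0 ↔ zc a i T = 0) ∧
      (∀ b, T.1 b b ≠ 0 → ∀ i, zc b i T = zc a i T / zc a b T))
    (hmk : ∀ (x : Fin 6 → ℂ) (_ : x ∈ Cone),
      ∃ T : X0, (∀ i j, T.1 i j = x i * (starRingEnd ℂ) (x j) / ((∑ k, ‖x k‖ ^ 2 : ℝ) : ℂ)) ∧
      ∀ a, x a ≠ 0 → T.1 a a ≠ 0 ∧ ∀ i, zc a i T = x i / x a)
    (a b c : Fin 6) (hab : a ≠ b) (hac : a ≠ c) (hbc : b ≠ c) (T : X0)
    (hT : T ∈ Och a b c) : ∃ e : OpenPartialHomeomorph X0 (ℂ × ℂ), T ∈ e.source ∧
      IsChAt a b c e := by
  classical
  have hA := P3_card a b c hab hac hbc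
  -- squares of the coordinates of a point
  have hR : ∀ T' : X0, T'.1 a a ≠ 0 → ∀ j, j ≠ a → j ≠ b → j ≠ c →
      zc a j T' ^ 2 = P3_R a b c j (crd a b c T') := by
    intro T' hT' j hja hjb hjc
    obtain ⟨h1, h2, -⟩ := hrel a T' hT'
    have h3 := (hP1 {a, b, c} hA _).mp h2 j (by simp [hja, hjb, hjc])
    rw [P3_sum a b c hab hac hbc] at h3
    rw [h3, h1]
    simp [P3_R, crd]
  have hz0 : ∀ j, j ≠ a → j ≠ b → j ≠ c → zc a j T ≠ 0 := by
    intro j hja hjb hjc h
    exact hT.2 j hja hjb hjc (((hrel a T hT.1).2.2.2.1 j).mpr h)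
  have hR0 : ∀ j, j ≠ a → j ≠ b → j ≠ c → P3_R a b c j (crd a b c T) ≠ 0 := by
    intro j hja hjb hjc
    rw [← hR T hT.1 j hja hjb hjc]
    exact pow_ne_zero 2 (hz0 j hja hjb hjc)
  -- the coordinates of the inverse
  have hxa : ∀ u, P3_x a b c T u a = 1 := fun u => by simp [P3_x]
  have hxb : ∀ u, P3_x a b c T u b = u.1 := fun u => by simp [P3_x, hab.symm]
  have hxc : ∀ u, P3_x a b c T u c = u.2 := fun u => by simp [P3_x, hac.symm, hbc.symm]
  have hxj : ∀ u j, j ≠ a → j ≠ b → j ≠ c → P3_x a b c T u j =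
      zc a j T * (P3_R a b c j u / P3_R a b c j (crd a b c T)) ^ (2⁻¹ : ℂ) := by
    intro u j hja hjb hjc
    simp [P3_x, hja, hjb, hjc]
  have hx : ∀ u, P3_x a b c T u ∈ Cone := by
    intro u
    constructor
    · intro h
      have := congrFun h a
      rw [hxa] at this
      exact one_ne_zero this
    · have h1 : (fun i => P3_x a b c T u i ^ 2) ∈ KK := by
        rw [hP1 {a, b, c} hA]
        intro j hj
        have hja : j ≠ a := fun h => hj (by simp [h])
        have hjb : j ≠ b := fun h => hj (by simp [h])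
        have hjc : j ≠ c := fun h => hj (by simp [h])
        rw [P3_sum a b c hab hac hbc]
        rw [hxa, hxb, hxc, hxj u j hja hjb hjc, mul_pow, P3_sqrt_sq, hR T hT.1 j hja hjb hjc,
          mul_div_cancel₀ _ (hR0 j hja hjb hjc)]
        simp [P3_R]
      exact h1
  let inv : ℂ × ℂ → X0 := fun u => (hmk _ (hx u)).choose
  have hinv1 : ∀ u i j, (inv u).1 i j = P3_x a b c T u i * (starRingEnd ℂ) (P3_x a b c T u j) /
      ((∑ k, ‖P3_x a b c T u k‖ ^ 2 : ℝ) : ℂ) := fun u => (hmk _ (hx u)).choose_spec.1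
  have hinv2 : ∀ u, (inv u).1 a a ≠ 0 ∧ ∀ i, zc a i (inv u) = P3_x a b c T u i := by
    intro u
    have h := (hmk _ (hx u)).choose_spec.2 a (by rw [hxa]; exact one_ne_zero)
    refine ⟨h.1, fun i => ?_⟩
    rw [h.2 i, hxa, div_one]
  let S : Set X0 := {T' | T'.1 a a ≠ 0 ∧ ∀ j, j ≠ a → j ≠ b → j ≠ c →
    0 < (zc a j T' / zc a j T).re}
  let U : Set (ℂ × ℂ) := {u | ∀ j, j ≠ a → j ≠ b → j ≠ c →
    P3_R a b c j u / P3_R a b c j (crd a b c T) ∈ Complex.slitPlane}
  have hSO : S ⊆ Och a b c := by
    intro T' hT'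
    refine ⟨hT'.1, fun j hja hjb hjc h => ?_⟩
    have h1 := hT'.2 j hja hjb hjc
    rw [((hrel a T' hT'.1).2.2.2.1 j).mp h] at h1
    simp at h1
  have hquot : ∀ T' : X0, T'.1 a a ≠ 0 → ∀ j, j ≠ a → j ≠ b → j ≠ c →
      P3_R a b c j (crd a b c T') / P3_R a b c j (crd a b c T) =
        (zc a j T' / zc a j T) ^ 2 := by
    intro T' hT' j hja hjb hjc
    rw [← hR T' hT' j hja hjb hjc, ← hR T hT.1 j hja hjb hjc, div_pow]
  have hUo : IsOpen U := by
    have : U = ⋂ j : Fin 6, ⋂ (_ : j ≠ a), ⋂ (_ : j ≠ b), ⋂ (_ : j ≠ c),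
        (fun u => P3_R a b c j u / P3_R a b c j (crd a b c T)) ⁻¹' Complex.slitPlane := by
      ext u
      simp [U]
    rw [this]
    refine isOpen_iInter_of_finite fun j => isOpen_iInter_of_finite fun _ =>
      isOpen_iInter_of_finite fun _ => isOpen_iInter_of_finite fun _ => ?_
    exact Complex.isOpen_slitPlane.preimage ((P3_R_cont a b c j).div_const _)
  have haO : IsOpen {T' : X0 | T'.1 a a ≠ 0} := by
    have hc : Continuous (fun T' : X0 => T'.1 a a) := by
      have h1 : Continuous (fun T' : X0 => T'.1) := continuous_subtype_val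
      exact (continuous_apply a).comp ((continuous_apply a).comp h1)
    exact isOpen_ne.preimage hc
  have hSo : IsOpen S := by
    have : S = {T' : X0 | T'.1 a a ≠ 0} ∩ ⋂ j : Fin 6, ⋂ (_ : j ≠ a), ⋂ (_ : j ≠ b),
        ⋂ (_ : j ≠ c), ({T' : X0 | T'.1 a a ≠ 0} ∩
          (fun T' => (zc a j T' / zc a j T).re) ⁻¹' Set.Ioi 0) := by
      ext T'
      simp only [S, Set.mem_ofPred_eq, Set.mem_inter_iff, Set.mem_iInter, Set.mem_preimage,
        Set.mem_Ioi]
      constructor
      · rintro ⟨h1, h2⟩
        exact ⟨h1, fun j hja hjb hjc => ⟨h1, h2 j hja hjb hjc⟩⟩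
      · rintro ⟨h1, h2⟩
        exact ⟨h1, fun j hja hjb hjc => (h2 j hja hjb hjc).2⟩
    rw [this]
    refine haO.inter (isOpen_iInter_of_finite fun j => isOpen_iInter_of_finite fun _ =>
      isOpen_iInter_of_finite fun _ => isOpen_iInter_of_finite fun _ => ?_)
    refine ContinuousOn.isOpen_inter_preimage ?_ haO isOpen_Ioi
    exact Complex.continuous_re.comp_continuousOn ((hzc a j).div_const _)
  let e : OpenPartialHomeomorph X0 (ℂ × ℂ) :=
    { toFun := crd a b c
      invFun := inv
      source := S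
      target := U
      map_source' := by
        intro T' hT' j hja hjb hjc
        rw [hquot T' hT'.1 j hja hjb hjc]
        exact P3_sq_slit _ (hT'.2 j hja hjb hjc)
      map_target' := by
        intro u hu
        refine ⟨(hinv2 u).1, fun j hja hjb hjc => ?_⟩
        rw [(hinv2 u).2 j, hxj u j hja hjb hjc, mul_div_cancel_left₀ _ (hz0 j hja hjb hjc)]
        exact P3_sqrt_re _ (hu j hja hjb hjc)
      left_inv' := by
        intro T' hT'
        have hxT : ∀ i, P3_x a b c T (crd a b c T') i = zc a i T' := by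
          intro i
          by_cases hia : i = a
          · rw [hia, hxa, (hrel a T' hT'.1).1]
          by_cases hib : i = b
          · rw [hib, hxb]
            rfl
          by_cases hic : i = c
          · rw [hic, hxc]
            rfl
          rw [hxj _ i hia hib hic, hquot T' hT'.1 i hia hib hic,
            P3_sq_sqrt _ (hT'.2 i hia hib hic), mul_div_cancel₀ _ (hz0 i hia hib hic)]
        apply Subtype.ext
        funext i j
        rw [hinv1, (hrel a T' hT'.1).2.2.1 i j]
        simp only [hxT]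
      right_inv' := by
        intro u _
        have h1 := (hinv2 u).2 b
        have h2 := (hinv2 u).2 c
        rw [hxb] at h1
        rw [hxc] at h2
        exact Prod.ext h1 h2
      open_source := hSo
      open_target := hUo
      continuousOn_toFun := by
        have h1 : S ⊆ {T' : X0 | T'.1 a a ≠ 0} := fun T' hT' => hT'.1
        exact ((hzc a b).mono h1).prodMk ((hzc a c).mono h1)
      continuousOn_invFun := by
        have hxcont : ∀ i, ContinuousOn (fun u => P3_x a b c T u i) U := by
          intro i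
          by_cases hia : i = a
          · have : (fun u => P3_x a b c T u i) = fun _ => 1 := by
              funext u
              rw [hia, hxa]
            rw [this]
            exact continuousOn_const
          by_cases hib : i = b
          · have : (fun u => P3_x a b c T u i) = fun u => u.1 := by
              funext u
              rw [hib, hxb]
            rw [this]
            exact continuousOn_fst
          by_cases hic : i = c
          · have : (fun u => P3_x a b c T u i) = fun u => u.2 := by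
              funext u
              rw [hic, hxc]
            rw [this]
            exact continuousOn_snd
          have : (fun u => P3_x a b c T u i) = fun u => zc a i T *
              (P3_R a b c i u / P3_R a b c i (crd a b c T)) ^ (2⁻¹ : ℂ) := by
            funext u
            rw [hxj u i hia hib hic]
          rw [this]
          refine continuousOn_const.mul ?_
          intro u hu
          have h3 : ContinuousAt (fun u => P3_R a b c i u / P3_R a b c i (crd a b c T)) u :=
            ((P3_R_cont a b c i).div_const _).continuousAt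
          have h4 : ContinuousAt (fun z : ℂ => z ^ (2⁻¹ : ℂ))
              (P3_R a b c i u / P3_R a b c i (crd a b c T)) :=
            continuousAt_cpow_const (hu i hia hib hic)
          exact (ContinuousAt.comp (g := fun z : ℂ => z ^ (2⁻¹ : ℂ))
            (f := fun u => P3_R a b c i u / P3_R a b c i (crd a b c T)) h4 h3).continuousWithinAt
        have hsum : ContinuousOn (fun u => ((∑ k, ‖P3_x a b c T u k‖ ^ 2 : ℝ) : ℂ)) U := by
          refine Complex.continuous_ofReal.comp_continuousOn ?_
          refine continuousOn_finsetSum _ fun k _ => ?_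
          exact ((hxcont k).norm).pow 2
        have hsne : ∀ u ∈ U, ((∑ k, ‖P3_x a b c T u k‖ ^ 2 : ℝ) : ℂ) ≠ 0 := by
          intro u _
          have h1 : (0 : ℝ) < ∑ k, ‖P3_x a b c T u k‖ ^ 2 := by
            refine Finset.sum_pos' (fun k _ => by positivity) ⟨a, Finset.mem_univ a, ?_⟩
            rw [hxa]
            simp
          exact_mod_cast h1.ne'
        have h2 : ContinuousOn (fun u => (inv u).1) U := by
          refine continuousOn_pi.mpr fun i => continuousOn_pi.mpr fun j => ?_
          have : (fun u => (inv u).1 i j) = fun u =>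
              P3_x a b c T u i * (starRingEnd ℂ) (P3_x a b c T u j) /
                ((∑ k, ‖P3_x a b c T u k‖ ^ 2 : ℝ) : ℂ) := by
            funext u
            exact hinv1 u i j
          rw [this]
          exact ((hxcont i).mul (Complex.continuous_conj.comp_continuousOn (hxcont j))).div
            hsum hsne
        exact Topology.IsInducing.subtypeVal.continuousOn_iff.mpr h2 }
  refine ⟨e, ?_, hab, hac, hbc, hSO, fun q _ => rfl⟩
  refine ⟨hT.1, fun j hja hjb hjc => ?_⟩
  rw [div_self (hz0 j hja hjb hjc)]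
  simp

end Pool.Agent.helper62.K3
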